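import Pool.Agent.H1.MorC

open Metric Filter
open scoped Topology

theorem Pool.Agent.Results.MP_be4214_an.Full.result
    (D : Set ℂ) (f : ℂ → ℂ) (hD : IsOpen D) (hf : ContinuousOn f D)
    (h : ∀ z ∈ D, Tendsto (fun r : ℝ => (∮ ζ in C(z, r), f ζ) / (r : ℂ) ^ 2) (𝓝[>] 0) (𝓝 0)) :
    AnalyticOnNhd ℂ f D :=
  (Pool.Agent.H1.Mor.morera D hD f hf h).analyticOnNhd hD
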